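import Pool.Agent.MP_a17da5_co.PC.Lex
import Pool.Agent.MP_a17da5_co.PC.For
import Pool.Agent.MP_a17da5_co.PC.Ord
import Pool.Agent.MP_a17da5_co.PC.Pos
import Pool.Agent.MP_a17da5_co.PC.Col
import Pool.Agent.MP_a17da5_co.PC.Blk
import Pool.Agent.MP_a17da5_co.PC.Ltwo
import Pool.Agent.MP_a17da5_co.PC.Cross
import Pool.Agent.MP_a17da5_co.PC.Rng
import Pool.Agent.MP_a17da5_co.PC.Line
import Pool.Agent.MP_a17da5_co.PC.Hit
import Pool.Agent.MP_a17da5_co.PC.Nest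
import Pool.Agent.MP_a17da5_co.PC.All
import Pool.Agent.MP_a17da5_co.PC.Up
import Pool.Agent.MP_a17da5_co.PC.Draw
import Pool.Agent.MP_a17da5_co.PC.Lat
import Pool.Agent.MP_a17da5_co.PC.Gone
import Pool.Agent.MP_a17da5_co.PC.Gtwo
import Pool.Agent.MP_a17da5_co.PC.Main
import Pool.Agent.MP_a17da5_co.PC.Fin

set_option autoImplicit false

namespace Pool.Agent.Results.MP_a17da5_co.PlanarCoverGraph

open Pool.Agent.MP_a17da5_co.PC

/-- There is a constant d0 such that every finite poset whose cover graph is planar (drawn in the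
plane by continuous arcs without crossings, not necessarily upward) has Boolean dimension at most
d0. -/
theorem result :
  ∃ d₀ : ℕ, ∀ (P : Type) [Fintype P] [PartialOrder P],
    (∃ (f : P → ℝ × ℝ) (γ : P → P → ℝ → ℝ × ℝ),
      Function.Injective f ∧
      (∀ a b : P, a ⋖ b →
        ContinuousOn (γ a b) (Set.Icc (0:ℝ) 1) ∧ γ a b 0 = f a ∧ γ a b 1 = f b) ∧
      (∀ a b e : P, a ⋖ b → ∀ s ∈ Set.Ioo (0:ℝ) 1, γ a b s ≠ f e) ∧
      (∀ a b c d : P, a ⋖ b → c ⋖ d → (a ≠ c ∨ b ≠ d) →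
        ∀ s ∈ Set.Ioo (0:ℝ) 1, ∀ t ∈ Set.Icc (0:ℝ) 1, γ a b s ≠ γ c d t)) →
    ∃ d ≤ d₀, ∃ (σ : Fin d → P → ℕ), (∀ i, Function.Injective (σ i)) ∧
      ∃ φ : (Fin d → Bool) → Bool, ∀ x y : P, x ≠ y →
        (x ≤ y ↔ φ (fun i => decide (σ i x < σ i y)) = true) := by
  obtain ⟨N, hN⟩ := dec_poset
    (s_all (s_rs s_lex (s_ord s_for) s_col (s_blk s_l2)
      (s_hit (s_pos s_for) s_cross (s_line s_rng)) (s_nest s_for)))
    (s_draw s_up) (s_g1 s_lat) s_g2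
  refine ⟨N + N, fun P _ _ h => ⟨N + N, le_rfl, ?_⟩⟩
  obtain ⟨f, γ, h⟩ := h
  exact (hN P f γ h).final

end Pool.Agent.Results.MP_a17da5_co.PlanarCoverGraph
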